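import Pool.Agent.H51.ERA.Stmts
import Pool.Agent.H51.ERA.Base

/-! # MP_e0047e_lc, board era: module KEY -/

set_option autoImplicit false

namespace Pool.Agent.H33.ERA

open Pool.Agent.H51.ERA

theorem enc_ne (ν : Node) (x : ℕ) : enc ν x ≠ 3 := by
  unfold enc
  split_ifs
  · decide
  · decide
  · split
    · decide
    · decide
    · decide

theorem isE_ent {s t : ℕ} (b : ℕ → Bool) (ν : Node) {q : ℕ} (hq : q + 1 < gg s t) :
    isE (ent s t b ν q) = false := by
  unfold isE ent lab
  simp only [decide_eq_false_iff_not]
  rw [if_neg (by omega)]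
  split_ifs
  · exact enc_ne _ _
  · decide

theorem isE_last {s t : ℕ} (b : ℕ → Bool) (ν : Node) {q : ℕ} (hq : q + 1 = gg s t) :
    isE (ent s t b ν q) = true := by
  unfold isE ent lab
  simp [hq]

theorem seg_length (s t : ℕ) (b : ℕ → Bool) (ν : Node) : (seg s t b ν).length = gg s t := by
  simp [seg]

theorem seg_take {s t : ℕ} (b : ℕ → Bool) (ν : Node) {y : ℕ} (hy : y < gg s t) :
    ∀ a ∈ (seg s t b ν).take y, isE a = false := by
  intro a ha
  unfold seg at ha
  rw [← List.map_take, List.take_range, Nat.min_eq_left (le_of_lt hy)] at ha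
  obtain ⟨q, hq, rfl⟩ := List.mem_map.1 ha
  rw [List.mem_range] at hq
  exact isE_ent b ν (by omega)

/-- shape of Tw -/
theorem Tw_shape (hTLN : TLNStmt) (s t : ℕ) (b : ℕ → Bool) (i h : ℕ) (p : List Bool) (m : ℕ) :
    ∃ M : List Ltr, Tw s t b i h p m = (seg s t b (i, p)).map Ltr.op ++
      (M ++ (seg s t b (i, p)).reverse.map Ltr.cl) ∧ (∀ σ, run M σ = some σ) ∧
      M.length + 2 * gg s t = tl s t h := by
  have key : ∀ M : List Ltr, Tw s t b i h p m = (seg s t b (i, p)).map Ltr.op ++
      (M ++ (seg s t b (i, p)).reverse.map Ltr.cl) → M.length + 2 * gg s t = tl s t h := by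
    intro M hM
    have h1 := (hTLN s t b i h p m).1
    rw [hM] at h1
    simp only [List.length_append, List.length_map, List.length_reverse, seg_length] at h1
    omega
  cases h with
  | zero =>
    refine ⟨[if m = 0 then Ltr.ee else Ltr.dd], rfl, ?_, key _ rfl⟩
    intro σ
    by_cases hm : m = 0
    · simp [hm, stp, run]
    · simp [hm, stp, run]
  | succ h =>
    refine ⟨Tw s t b i h (false :: p) (min m (2 ^ h)) ++ Tw s t b i h (true :: p) (m - 2 ^ h), rfl,
      ?_, key _ rfl⟩
    intro σ
    exact run_comp ((hTLN s t b i h _ _).2.1 σ) ((hTLN s t b i h _ _).2.1 σ)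

/-- reading an initial piece of Tw which ends near the boundary -/
theorem bdry (hTLN : TLNStmt) (s t : ℕ) (b : ℕ → Bool) (i h : ℕ) (p : List Bool) (m z : ℕ)
    (hz : z ≤ tl s t h) (hz' : z < gg s t ∨ tl s t h < z + gg s t) :
    ∃ τ : List Ent, (∀ a ∈ τ, isE a = false) ∧
      ∀ σ, run ((Tw s t b i h p m).take z) σ = some (τ ++ σ) := by
  obtain ⟨M, hM, hrun, hlen⟩ := Tw_shape hTLN s t b i h p m
  rcases hz' with hz' | hz'
  · refine ⟨((seg s t b (i, p)).take z).reverse, ?_, ?_⟩
    · intro a ha
      exact seg_take b (i, p) hz' a (List.mem_reverse.1 ha)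
    · intro σ
      rw [hM, List.take_append_of_le_length (by
        rw [List.length_map, seg_length]
        omega), ← List.map_take]
      exact run_ops _ _
  · have hy : tl s t h - z < gg s t := by omega
    refine ⟨((seg s t b (i, p)).take (tl s t h - z)).reverse, ?_, ?_⟩
    · intro a ha
      exact seg_take b (i, p) hy a (List.mem_reverse.1 ha)
    · intro σ
      have e1 : (Tw s t b i h p m).take z = (seg s t b (i, p)).map Ltr.op ++
          (M ++ ((seg s t b (i, p)).reverse.take (gg s t - (tl s t h - z))).map Ltr.cl) := by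
        rw [hM]
        have e2 : z = ((seg s t b (i, p)).map Ltr.op).length +
            (M.length + (gg s t - (tl s t h - z))) := by
          rw [List.length_map, seg_length]
          omega
        conv_lhs => rw [e2]
        rw [List.take_length_add_append, List.take_length_add_append, List.map_take]
      rw [e1]
      refine run_comp (run_ops _ _) (run_comp (hrun _) ?_)
      have e3 : (seg s t b (i, p)).reverse =
          (seg s t b (i, p)).reverse.take (gg s t - (tl s t h - z)) ++
            ((seg s t b (i, p)).take (tl s t h - z)).reverse := by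
        rw [List.reverse_take, seg_length, List.take_append_drop]
      conv_lhs => rw [e3]
      rw [List.append_assoc]
      have e4 : (seg s t b (i, p)).reverse.take (gg s t - (tl s t h - z)) =
          ((seg s t b (i, p)).reverse.take (gg s t - (tl s t h - z)) ++
            ((seg s t b (i, p)).take (tl s t h - z)).reverse).take (gg s t - (tl s t h - z)) := by
        rw [← e3]
      rw [← e4]
      exact run_cls _ _


theorem tl_ge (s t h : ℕ) : 2 * gg s t ≤ tl s t h := by
  cases h with
  | zero => simp only [tl]; omega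
  | succ h => simp only [tl]; omega

/-- the claim: positions in the middle region of a node -/
theorem claim (hSUB : SUBStmt) (hTLN : TLNStmt) (s t : ℕ) (b : ℕ → Bool) (i : ℕ) :
    ∀ (h : ℕ) (p : List Bool), IsNode s t i p → DD t - p.length = h → ∀ x0 : ℕ,
      lo s t i p + gg s t ≤ x0 → x0 + gg s t ≤ hi s t i p →
      ∃ p2 : List Bool, IsNode s t i p2 ∧ lo s t i p ≤ lo s t i p2 ∧ lo s t i p2 + gg s t ≤ x0 ∧
        ∃ τ : List Ent, (∀ a ∈ τ, isE a = false) ∧
          ∀ σ, run (sl (WW s t b) (lo s t i p2 + gg s t) x0) σ = some (τ ++ σ) := by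
  intro h
  induction h with
  | zero =>
    intro p hp hh x0 h1 h2
    obtain ⟨A, C, m, hW, hA⟩ := hSUB s t b i p hp
    obtain ⟨M, hM, hrun, hlen⟩ := Tw_shape hTLN s t b i (DD t - p.length) p m
    refine ⟨p, hp, le_refl _, h1, [], by simp, ?_⟩
    intro σ
    unfold hi at h2
    rw [hh] at h2 hlen
    simp only [tl] at h2 hlen
    obtain ⟨z, rfl⟩ : ∃ z, x0 = lo s t i p + gg s t + z := ⟨x0 - (lo s t i p + gg s t), by omega⟩
    have e1 : sl (WW s t b) (lo s t i p + gg s t) (lo s t i p + gg s t + z) = M.take z := by
      rw [hW, hM, ← hA]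
      have e2 : A ++ ((seg s t b (i, p)).map Ltr.op ++
          (M ++ (seg s t b (i, p)).reverse.map Ltr.cl) ++ C) =
          (A ++ (seg s t b (i, p)).map Ltr.op) ++
            (M ++ ((seg s t b (i, p)).reverse.map Ltr.cl ++ C)) := by
        simp only [List.append_assoc]
      have e3 : A.length + gg s t = (A ++ (seg s t b (i, p)).map Ltr.op).length := by
        rw [List.length_append, List.length_map, seg_length]
      rw [e2, e3]
      have e4 := sl_sub (A ++ (seg s t b (i, p)).map Ltr.op) M
        ((seg s t b (i, p)).reverse.map Ltr.cl ++ C) 0 z (by omega)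
      rw [Nat.add_zero] at e4
      rw [e4]
      simp [sl]
    rw [e1]
    have hz : z = 0 ∨ z = M.length := by omega
    rcases hz with rfl | rfl
    · simp [run]
    · rw [List.take_length]
      exact hrun σ
  | succ h ih =>
    intro p hp hh x0 h1 h2
    obtain ⟨A, C, m, hW, hA⟩ := hSUB s t b i p hp
    rw [hh] at hW
    have hp' : ∀ c : Bool, IsNode s t i (c :: p) := by
      intro c
      refine ⟨hp.1, ?_⟩
      rw [List.length_cons]
      omega
    have hlo : ∀ c : Bool, lo s t i (c :: p) =
        lo s t i p + gg s t + (if c then tl s t h else 0) := by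
      intro c
      have : DD t - (p.length + 1) = h := by omega
      simp only [lo, this]
    have hhi : ∀ c : Bool, hi s t i (c :: p) = lo s t i (c :: p) + tl s t h := by
      intro c
      have : DD t - (c :: p).length = h := by
        rw [List.length_cons]
        omega
      unfold hi
      rw [this]
    unfold hi at h2
    rw [hh] at h2
    simp only [tl] at h2
    obtain ⟨z, rfl⟩ : ∃ z, x0 = lo s t i p + gg s t + z := ⟨x0 - (lo s t i p + gg s t), by omega⟩
    have hT1 := (hTLN s t b i h (false :: p) (min m (2 ^ h))).1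
    have hT2 := (hTLN s t b i h (true :: p) (m - 2 ^ h)).1
    have hR1 := (hTLN s t b i h (false :: p) (min m (2 ^ h))).2.1
    have e1 : sl (WW s t b) (lo s t i p + gg s t) (lo s t i p + gg s t + z) =
        (Tw s t b i h (false :: p) (min m (2 ^ h)) ++
          Tw s t b i h (true :: p) (m - 2 ^ h)).take z := by
      rw [hW, ← hA]
      have e2 : A ++ (Tw s t b i (h + 1) p m ++ C) =
          (A ++ (seg s t b (i, p)).map Ltr.op) ++
            ((Tw s t b i h (false :: p) (min m (2 ^ h)) ++ Tw s t b i h (true :: p) (m - 2 ^ h)) ++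
              ((seg s t b (i, p)).reverse.map Ltr.cl ++ C)) := by
        simp only [Tw, List.append_assoc]
      have e3 : A.length + gg s t = (A ++ (seg s t b (i, p)).map Ltr.op).length := by
        rw [List.length_append, List.length_map, seg_length]
      rw [e2, e3]
      have e4 := sl_sub (A ++ (seg s t b (i, p)).map Ltr.op)
        (Tw s t b i h (false :: p) (min m (2 ^ h)) ++ Tw s t b i h (true :: p) (m - 2 ^ h))
        ((seg s t b (i, p)).reverse.map Ltr.cl ++ C) 0 z (by
          rw [List.length_append, hT1, hT2]
          omega)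
      rw [Nat.add_zero] at e4
      rw [e4]
      simp [sl]
    by_cases c1 : z ≤ tl s t h
    · by_cases c2 : gg s t ≤ z ∧ z + gg s t ≤ tl s t h
      · obtain ⟨p2, q1, q2, q3, q4⟩ := ih (false :: p) (hp' false) (by
          rw [List.length_cons]
          omega) (lo s t i p + gg s t + z) (by
          rw [hlo]
          simp only [Bool.false_eq_true, if_false]
          omega) (by
          rw [hhi, hlo]
          simp only [Bool.false_eq_true, if_false]
          omega)
        refine ⟨p2, q1, ?_, q3, q4⟩
        rw [hlo] at q2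
        omega
      · obtain ⟨τ, ht, hr⟩ := bdry hTLN s t b i h (false :: p) (min m (2 ^ h)) z c1 (by omega)
        refine ⟨p, hp, le_refl _, h1, τ, ht, ?_⟩
        intro σ
        rw [e1, List.take_append_of_le_length (by rw [hT1]; exact c1)]
        exact hr σ
    · obtain ⟨z', rfl⟩ : ∃ z', z = tl s t h + z' := ⟨z - tl s t h, by omega⟩
      by_cases c2 : gg s t ≤ z' ∧ z' + gg s t ≤ tl s t h
      · obtain ⟨p2, q1, q2, q3, q4⟩ := ih (true :: p) (hp' true) (by
          rw [List.length_cons]
          omega) (lo s t i p + gg s t + (tl s t h + z')) (by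
          rw [hlo]
          simp only [if_true]
          omega) (by
          rw [hhi, hlo]
          simp only [if_true]
          omega)
        refine ⟨p2, q1, ?_, q3, q4⟩
        rw [hlo] at q2
        omega
      · obtain ⟨τ, ht, hr⟩ := bdry hTLN s t b i h (true :: p) (m - 2 ^ h) z' (by omega) (by omega)
        refine ⟨p, hp, le_refl _, h1, τ, ht, ?_⟩
        intro σ
        rw [e1]
        have e5 : tl s t h + z' =
            (Tw s t b i h (false :: p) (min m (2 ^ h))).length + z' := by rw [hT1]
        rw [e5, List.take_length_add_append]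
        exact run_comp (hR1 σ) (hr σ)

theorem dropWhile_ne (τ L : List Ent) (a : Ent) (ht : ∀ a ∈ τ, isE a = false)
    (ha : isE a = true) : (τ ++ a :: L).dropWhile (fun x => !isE x) = a :: L := by
  induction τ with
  | nil => simp [ha]
  | cons c τ ih =>
    rw [List.cons_append, List.dropWhile_cons, ht c List.mem_cons_self]
    simp only [Bool.not_false, if_true]
    exact ih fun a h => ht a (List.mem_cons_of_mem _ h)

/-- KEY -/
theorem KEY_thm (hSUB : SUBStmt) (hTLN : TLNStmt) (hOPS : OPSStmt) : KEYStmt := by
  intro s t b i p x x' hp hx hx1 hx2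
  obtain ⟨p2, hp2, hlo, hx3, τ, ht, hr⟩ := claim hSUB hTLN s t b i _ p hp rfl x' hx1 hx2
  refine ⟨i, p2, hp2, by omega, hx3, ?_⟩
  intro σ σ' hσ
  have hg : gg s t = lam s + t + ll s t := rfl
  have e1 : sl (WW s t b) x x' = sl (WW s t b) x (lo s t i p2 + (lam s + t)) ++
      (sl (WW s t b) (lo s t i p2 + (lam s + t)) (lo s t i p2 + gg s t) ++
        sl (WW s t b) (lo s t i p2 + gg s t) x') := by
    rw [sl_append _ (by omega) hx3, sl_append _ (by omega) (by omega)]
  rw [e1] at hσ
  obtain ⟨σ1, -, h2⟩ := run_split hσ
  rw [hOPS s t b i p2 (lam s + t) (gg s t) hp2 (by omega) (le_refl _)] at h2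
  have h3 := run_comp (run_ops ((List.range' (lam s + t) (gg s t - (lam s + t))).map
    (ent s t b (i, p2))) σ1) (hr _)
  rw [h3] at h2
  have h4 : σ' = τ ++ (((List.range' (lam s + t) (gg s t - (lam s + t))).map
    (ent s t b (i, p2))).reverse ++ σ1) := (Option.some.inj h2).symm
  have hsub : gg s t - (lam s + t) = ll s t := by omega
  rw [hsub] at h4
  have hl : ll s t = (ll s t - 1) + 1 := by
    unfold ll
    omega
  have h5 : ((List.range' (lam s + t) (ll s t)).map (ent s t b (i, p2))).reverse =
      ent s t b (i, p2) (gg s t - 1) ::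
        ((List.range' (lam s + t) (ll s t - 1)).map (ent s t b (i, p2))).reverse := by
    conv_lhs => rw [hl]
    rw [List.range'_concat, List.map_append, List.reverse_append]
    simp only [List.map_cons, List.map_nil, List.reverse_cons, List.reverse_nil, List.nil_append,
      List.cons_append, Nat.one_mul]
    rw [show lam s + t + (ll s t - 1) = gg s t - 1 by omega]
  unfold key
  rw [h4]
  have h6 : (τ ++ (((List.range' (lam s + t) (ll s t)).map (ent s t b (i, p2))).reverse ++
      σ1)).dropWhile (fun x => !isE x) =
      ((List.range' (lam s + t) (ll s t)).map (ent s t b (i, p2))).reverse ++ σ1 := by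
    rw [h5, List.cons_append]
    exact dropWhile_ne _ _ _ ht (isE_last b (i, p2) (by omega))
  rw [h6, List.take_append_of_le_length (by simp), List.take_of_length_le (by simp)]
  unfold code
  rw [List.map_reverse, List.map_map]
  rfl

end Pool.Agent.H33.ERA
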